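import Mathlib

/-!
# The edge of the L-functions of all projective varieties over all number fields: definitions

`X` is a smooth projective variety of dimension `d` over a number field `K`, for example over
`K = ℚ`, and `i ≤ 2 d`.  The function `L(H^i(X), s)` is an Euler product over the primes of `K`,
absolutely convergent for `Re s > i/2 + 1`.
-/

set_option autoImplicit false

namespace Pool.Agent.TH958.BV

open NumberField IsDedekindDomain Filter Topology Polynomial

variable {n : ℕ}

/-- The set `X` of homogeneous polynomials over a ring `R` in `n` variables defines a projective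
scheme over `R`.  For a field `κ` with `q` elements and a homomorphism `R → κ` this is `(q - 1)`
times the number of the points of `X` with coordinates in `κ`: the number of the nonzero solutions
of the equations. -/
noncomputable def cone {R : Type} [CommRing R] (X : Set (MvPolynomial (Fin n) R)) {κ : Type}
    [Field κ] (φ : R →+* κ) : ℕ :=
  Nat.card {u : Fin n → κ // u ≠ 0 ∧ ∀ f ∈ X, MvPolynomial.eval₂ φ u f = 0}

variable {K : Type} [Field K] [NumberField K]

/-- `α_1, …, α_N` are the eigenvalues of the geometric Frobenius at the prime `v` of `K` on `H^i(X)`,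
for a variety `X` of dimension `d`: there are finite multisets `β_k` of complex numbers of absolute
value `q_v^{k/2}`, `k = 0, …, 2d`, with `β_i = {α_1, …, α_N}`, such that for every finite extension
`κ` of the residue field of `v`, of degree `e`, the number of the points of `X` with coordinates in
`κ` is `∑ (-1)^k ∑_{z ∈ β_k} z^e`.  By the theorem of Deligne such `β_k` exist at almost all primes
if `X` is smooth, with `N` the `i`-th Betti number of `X`; for `k ≤ 2d` they are unique. -/
def IsFrobenius (X : Set (MvPolynomial (Fin n) (𝓞 K))) (d i : ℕ)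
    (v : HeightOneSpectrum (𝓞 K)) {N : ℕ} (α : Fin N → ℂ) : Prop :=
  ∃ β : ℕ → Multiset ℂ, β i = Finset.univ.val.map α ∧
    (∀ k, ∀ z ∈ β k, ‖z‖ = (Ideal.absNorm v.asIdeal : ℝ) ^ ((k : ℝ) / 2)) ∧
    ∀ (κ : Type) [Field κ] [Finite κ] (φ : 𝓞 K →+* κ) (e : ℕ), RingHom.ker φ = v.asIdeal →
      Nat.card κ = Ideal.absNorm v.asIdeal ^ e →
      (cone X φ : ℂ) = ((Ideal.absNorm v.asIdeal : ℂ) ^ e - 1) *
          ∑ k ∈ Finset.range (2 * d + 1), (-1 : ℂ) ^ k * ((β k).map (fun z => z ^ e)).sum

/-- The polynomials `B v` are the Euler factors of `L(H^i(X), s)`: `B_v(z) = ∏ (1 - α_j z)` for almost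
all primes `v` of `K`, with the eigenvalues `α_j` of Frobenius, and at the other primes `B v` is an
arbitrary polynomial with algebraic coefficients different from `0`. -/
def IsEulerSystem (X : Set (MvPolynomial (Fin n) (𝓞 K))) (d i N : ℕ)
    (B : HeightOneSpectrum (𝓞 K) → ℂ[X]) : Prop :=
  (∀ᶠ v in cofinite, ∃ α : Fin N → ℂ, IsFrobenius X d i v α ∧
    ∀ z : ℂ, (B v).eval z = ∏ j, (1 - α j * z)) ∧
  ∀ v, B v ≠ 0 ∧ ∀ k, IsAlgebraic ℚ ((B v).coeff k)

/-- The Euler factor `B_v(q_v^{-s})⁻¹`. -/
noncomputable def localFactor (B : HeightOneSpectrum (𝓞 K) → ℂ[X]) (v : HeightOneSpectrum (𝓞 K))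
    (s : ℂ) : ℂ :=
  ((B v).eval ((Ideal.absNorm v.asIdeal : ℂ) ^ (-s)))⁻¹

/-- The `L`-function, the Euler product over all primes of `K`. -/
noncomputable def LFun (B : HeightOneSpectrum (𝓞 K) → ℂ[X]) (s : ℂ) : ℂ :=
  ∏' v : HeightOneSpectrum (𝓞 K), localFactor B v s

/-- The point `i/2 + 1 + iτ` of the edge of absolute convergence. -/
noncomputable def edgePoint (i : ℕ) (τ : ℝ) : ℂ :=
  (((i : ℝ) / 2 + 1 : ℝ) : ℂ) + (τ : ℂ) * Complex.I

/-- The angle `|s - s_τ| ≤ C (Re s - (i/2 + 1))` at `s_τ = i/2 + 1 + iτ` in the half-plane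
`Re s > i/2 + 1`. -/
def angle (i : ℕ) (τ C : ℝ) : Set ℂ :=
  {s : ℂ | (i : ℝ) / 2 + 1 < s.re ∧ ‖s - edgePoint i τ‖ ≤ C * (s.re - ((i : ℝ) / 2 + 1))}

end Pool.Agent.TH958.BV
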